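import Pool.Agent.Lead.Jit4

set_option autoImplicit false

namespace Pool.Agent.Results.MP_cedc2d_lc.Q1
open Pool.Agent.H11.PT Pool.Agent.Lead.Jit

theorem result : NPHard (fun y => Valid y ∧ ¬ Yes y) ∧
    (InNP (fun y => Valid y ∧ Yes y) → ∀ L : List Bool → Prop, InNP L → InNP (fun w => ¬ L w)) :=
  ⟨hard.npHard, collapse⟩

end Pool.Agent.Results.MP_cedc2d_lc.Q1
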